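import Mathlib
import Pool.Agent.Helper55.JS.Walks

/-!
# Project JS: statements of the pieces (stubs; never import this file in a delivered piece,
import the delivered files)

Paper proof: /team-store/js_proof.md, hints: /team-store/js_hints.md
-/

set_option autoImplicit false

namespace Pool.Agent.Helper55.JS

open Finset

/-! ## JS-1: log-convex sequences (pure analysis) -/

/-- JS-1a -/
theorem logconv_prod {a : ℕ → ℝ} (hpos : ∀ r, 0 ≤ a r)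
    (hlc : ∀ r, 1 ≤ r → a r ^ 2 ≤ a (r - 1) * a (r + 1)) (h0 : a 0 = 1) {L ε : ℝ} (hL : a 1 ≤ L)
    (hε : 0 < ε) {k r : ℕ} (hr : 1 ≤ r) (hrk : r < k) :
    a r * a (k - r) ≤ ε * a k + (L / ε) ^ k := by
  sorry

/-- JS-1b -/
theorem logconv_le {a : ℕ → ℝ} (hpos : ∀ r, 0 ≤ a r)
    (hlc : ∀ r, 1 ≤ r → a r ^ 2 ≤ a (r - 1) * a (r + 1)) (h0 : a 0 = 1) {T E : ℝ} (hT : 1 ≤ T)
    (hE : 0 < E) {k : ℕ} (hk : a k ≤ T * E ^ k) {m : ℕ} (hm : m ≤ k) : a m ≤ T * E ^ m := by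
  sorry

/-! ## JS-2: growth (pure analysis) -/

/-- JS-2 -/
theorem growth_numbers (j : ℕ) (C ρ : ℝ) (hC : 1 ≤ C) (hρ : 1 ≤ ρ) : ∃ M0 : ℝ, 0 < M0 ∧
    ∀ (α : ℕ → ℝ) (β : ℝ), 0 < β → (∀ i, 0 ≤ α i) → α 0 ≤ C * β → M0 * β ≤ α j →
      (∀ i, 1 ≤ i → i < j →
        α i ^ 2 ≤ α (i - 1) * (α (i + 1) + C * ∑ i' ∈ range i, α i' + C * β)) →
      ∀ i, i < j → ρ * α i < α j := by
  sorry

/-! ## JS-3: greedy choice and embedding -/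

/-- JS-3a -/
theorem greedy {V α : Type} [DecidableEq V] {t m : ℕ} (A : Fin t → Set α) (inn : α → Finset V)
    (hm : ∀ a, ∀ x ∈ A a, (inn x).card ≤ m)
    (h : ∀ a, ∀ F : Finset V, F.card ≤ t * m → ∃ x ∈ A a, Disjoint (inn x) F) :
    ∃ x : Fin t → α, (∀ a, x a ∈ A a) ∧ ∀ a b, a ≠ b → Disjoint (inn (x a)) (inn (x b)) := by
  sorry

/-- JS-3b -/
theorem isContained_of_copies {V : Type} {G : SimpleGraph V} {s t : ℕ} (hs : 1 ≤ s) (ht : 1 ≤ t)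
    {j : Fin s → ℕ} (hj : ∀ c, 1 ≤ j c) (X : Fin s → V) (u : Fin t → V) (p : Fin t → Legs V j)
    (hc : ∀ a, IsCopy G j (u a) (p a)) (hX : ∀ a c, p a c (Fin.last (j c)) = X c)
    (hd : ∀ a b, a ≠ b → ∀ (c c' : Fin s) (i : Fin (j c)) (i' : Fin (j c')),
      p a c i.castSucc ≠ p b c' i'.castSucc) :
    (blow s t j).IsContained G := by
  sorry

/-! ## JS-4: hitting sets -/

/-- JS-4 -/
theorem hitting {V : Type} [Fintype V] [DecidableEq V] {G : SimpleGraph V} {s t : ℕ} (hs : 1 ≤ s)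
    (ht : 1 ≤ t) {j : Fin s → ℕ} (hj : ∀ c, 1 ≤ j c) (hfree : (blow s t j).Free G)
    (X : Fin s → V) :
    IX G j X ^ 2 ≤ ((t : ℝ) * (∑ c, j c : ℕ) ^ 2) *
      ∑ c, ∑ i : Fin (j c), ∑ z, IXz G j X c i z ^ 2 := by
  sorry

variable {V : Type} [Fintype V] [DecidableEq V] {G : SimpleGraph V}

/-! ## JS-5: consequences of log-convexity for walks -/

/-- JS-5a -/
theorem closed_small {k : ℕ} {L ε : ℝ} (hε : 0 < ε) (hL : ∀ v, dg G v ≤ L)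
    (hN : (L / ε) ^ k * Fintype.card V ≤ ε * ∑ v, W G (2 * k) v v) (m : ℕ) (hm : 1 ≤ m)
    (hm' : m < 2 * k) :
    ∑ v, W G m v v * W G (2 * k - m) v v ≤ 2 * ε * ∑ v, W G (2 * k) v v := by
  sorry

/-- JS-5b -/
theorem W_le_of_light {k : ℕ} {T D : ℝ} (hT : 1 ≤ T) (hD : 0 < D)
    (h : ∀ v, W G (2 * k) v v ≤ T * D ^ (2 * k)) {m : ℕ} (hm : m ≤ 2 * k) (x y : V) :
    W G m x y ≤ T * D ^ m := by
  sorry

/-! ## JS-6: the mass of the non-spread pairs -/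

open Classical in
/-- JS-6 -/
theorem nonspread_mass {k : ℕ} (hk : 1 ≤ k) {δ N' : ℝ} (hδ : 0 < δ)
    (hcl : ∀ m, 1 ≤ m → m < 2 * k → ∑ v, W G m v v * W G (2 * k - m) v v ≤ N') :
    ∑ x, ∑ y, (if Spread G k δ x y then 0 else W G k x y ^ 2) ≤
      ((k : ℝ) / δ ^ 2 + 2 * ((k : ℝ) + 1) ^ 2) * N' := by
  sorry

/-! ## JS-7: choice of the configuration -/

open Classical in
/-- JS-7 -/
theorem exists_config {j1 j2 k : ℕ} (h1k : j1 < k) (h2k : j2 < k)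
    (hJ : k ≤ j1 + j2) {δ N' : ℝ} (hN : 0 < ∑ v, W G (2 * k) v v)
    (hcl : ∀ m, 1 ≤ m → m < 2 * k → ∑ v, W G m v v * W G (2 * k - m) v v ≤ N')
    (hns : ∑ x, ∑ y, (if Spread G k δ x y then 0 else W G k x y ^ 2) ≤ N')
    (hN' : 16 * (k : ℝ) ^ 2 * N' ≤ (∑ v, W G (2 * k) v v) / 4) :
    ∃ (w X1 X2 : V) (Qs : Finset (Fin (j1 + j2 + 1) → V)), 0 < W G (j1 + j2) X1 X2 ∧
      Qs ⊆ wk G (j1 + j2) X1 X2 ∧ 3 / 4 * W G (j1 + j2) X1 X2 ≤ (Qs.card : ℝ) ∧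
      ∀ Q ∈ Qs, Function.Injective Q ∧ (∀ i, Q i ≠ w) ∧
        (∀ (a : ℕ) (h : a + k ≤ j1 + j2),
          Spread G k δ (Q ⟨a, by omega⟩) (Q ⟨a + k, by omega⟩)) ∧
        Spread G k δ w (Q ⟨j1, by omega⟩) := by
  sorry

/-! ## JS-8: the greedy choice of the long walks -/

/-- JS-8a -/
theorem pos_bound {J k : ℕ} (hk : 2 ≤ k) (hJ : k ≤ J) {δ : ℝ} {X1 X2 : V}
    {Qs : Finset (Fin (J + 1) → V)} (hQs : Qs ⊆ wk G J X1 X2)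
    (hs : ∀ Q ∈ Qs, ∀ (a : ℕ) (h : a + k ≤ J),
      Spread G k δ (Q ⟨a, by omega⟩) (Q ⟨a + k, by omega⟩))
    (i : Fin (J + 1)) (hi : i ≠ 0) (hi' : i ≠ Fin.last J) (z : V) :
    ((Qs.filter fun Q => Q i = z).card : ℝ) ≤ δ * W G J X1 X2 := by
  sorry

/-- JS-8b -/
theorem choose_Q {J t : ℕ} {X1 X2 : V} {δ : ℝ} {Qs : Finset (Fin (J + 1) → V)}
    (hW : 0 < W G J X1 X2) (hc : 3 / 4 * W G J X1 X2 ≤ (Qs.card : ℝ)) (hδ0 : 0 ≤ δ)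
    (hδ : (t : ℝ) * (J : ℝ) ^ 2 * δ ≤ 1 / 2)
    (hp : ∀ (i : Fin (J + 1)), i ≠ 0 → i ≠ Fin.last J → ∀ z,
      ((Qs.filter fun Q => Q i = z).card : ℝ) ≤ δ * W G J X1 X2) :
    ∃ Q : Fin t → (Fin (J + 1) → V), (∀ a, Q a ∈ Qs) ∧ ∀ a b, a ≠ b →
      ∀ i i' : Fin (J + 1), i ≠ 0 → i ≠ Fin.last J → i' ≠ 0 → i' ≠ Fin.last J →
        Q a i ≠ Q b i' := by
  sorry

/-! ## JS-9: the greedy choice of the short walks -/

/-- JS-9 -/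
theorem choose_R {k t : ℕ} {δ : ℝ} {w : V} (U : Fin t → V) (hs : ∀ a, Spread G k δ w (U a))
    (F : Finset V) (hδ : 0 ≤ δ) (hF : (k : ℝ) * ((F.card : ℝ) + t * k) * δ ≤ 1 / 4) :
    ∃ R : Fin t → (Fin (k + 1) → V),
      (∀ a, R a ∈ wk G k w (U a) ∧ Function.Injective (R a) ∧
        ∀ i, i ≠ 0 → i ≠ Fin.last k → R a i ∉ F) ∧
      ∀ a b, a ≠ b → ∀ i i' : Fin (k + 1), i ≠ 0 → i ≠ Fin.last k → i' ≠ 0 → i' ≠ Fin.last k →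
        R a i ≠ R b i' := by
  sorry

/-! ## JS-10: assembling the blowup in the heavy case -/

/-- JS-10 -/
theorem heavy_assemble {j1 j2 k t : ℕ} (ht : 1 ≤ t) (h1 : 1 ≤ j1) (h2 : 1 ≤ j2) (hk : 1 ≤ k)
    {w X1 X2 : V} (Q : Fin t → (Fin (j1 + j2 + 1) → V))
    (hQ : ∀ a, Q a ∈ wk G (j1 + j2) X1 X2) (hQi : ∀ a, Function.Injective (Q a))
    (hQw : ∀ a i, Q a i ≠ w)
    (hQd : ∀ a b, a ≠ b → ∀ i i' : Fin (j1 + j2 + 1), i ≠ 0 → i ≠ Fin.last (j1 + j2) →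
      i' ≠ 0 → i' ≠ Fin.last (j1 + j2) → Q a i ≠ Q b i')
    (R : Fin t → (Fin (k + 1) → V)) (hR : ∀ a, R a ∈ wk G k w (Q a ⟨j1, by omega⟩))
    (hRi : ∀ a, Function.Injective (R a))
    (hRQ : ∀ a b (i : Fin (k + 1)) (i' : Fin (j1 + j2 + 1)), i ≠ 0 → i ≠ Fin.last k →
      R a i ≠ Q b i')
    (hRd : ∀ a b, a ≠ b → ∀ i i' : Fin (k + 1), i ≠ 0 → i ≠ Fin.last k → i' ≠ 0 →
      i' ≠ Fin.last k → R a i ≠ R b i') :
    (blow 3 t ![j1, j2, k]).IsContained G := by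
  sorry

/-! ## JS-11: reduction to the pointwise light case -/

/-- JS-11 -/
theorem exists_light_subgraph [Nonempty V] {k : ℕ} {d T K : ℝ} (hd : 0 < d) (hK : 1 ≤ K)
    (hT : 0 < T) (hdeg : ∀ v, d ≤ dg G v) (hdeg' : ∀ v, dg G v ≤ K * d)
    (hN : ∑ v, W G (2 * k) v v ≤ T * Fintype.card V * d ^ k) :
    ∃ (V' : Type) (_ : Fintype V') (_ : DecidableEq V') (G' : SimpleGraph V'), Nonempty V' ∧
      G'.IsContained G ∧ (∀ v, d / 4 ≤ dg G' v) ∧ (∀ v, dg G' v ≤ K * d) ∧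
      ∀ v, W G' (2 * k) v v ≤ 4 * K * T * d ^ k := by
  sorry

/-! ## JS-12: the number of copies -/

/-- JS-12 -/
theorem card_copies {s : ℕ} (j : Fin s → ℕ) {k : ℕ} (hjk : ∀ c, j c ≤ k) {K T : ℝ} (hK : 1 ≤ K)
    (hT : 1 ≤ T) : ∃ D0 : ℝ, ∀ (V : Type) [Fintype V] [DecidableEq V] (G : SimpleGraph V)
      (D : ℝ), D0 ≤ D → 1 ≤ D → (∀ v, D ^ 2 ≤ dg G v) → (∀ v, dg G v ≤ K * D ^ 2) →
      (∀ m ≤ 2 * k, ∀ x y, W G m x y ≤ T * D ^ m) →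
      (Fintype.card V : ℝ) * D ^ (2 * ∑ c, j c) / 2 ≤ ((cps G j).card : ℝ) := by
  sorry

/-! ## JS-13: copies with a prescribed vertex -/

/-- JS-13 -/
theorem D_inner {s : ℕ} {j : Fin s → ℕ} {T D : ℝ} (c : Fin s) (i : Fin (j c))
    (hW : ∀ y, W G (2 * (j c - i)) y y ≤ T * D ^ (2 * (j c - i))) :
    ∑ X, ∑ z, IXz G j X c i z ^ 2 ≤ T * D ^ (2 * (j c - i)) * Qc G j c i := by
  sorry

/-! ## JS-14: first and last term -/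

/-- JS-14a -/
theorem Qc_zero {s : ℕ} {j : Fin s → ℕ} {T D : ℝ} (hT : 1 ≤ T) (hD : 0 < D) (c : Fin s)
    (hW : ∀ b, ∀ y, W G (2 * j b) y y ≤ T * D ^ (2 * j b)) :
    Qc G j c 0 ≤ Fintype.card V * T ^ s * D ^ (2 * ((∑ b, j b) - j c)) := by
  sorry

/-- JS-14b -/
theorem Qc_last {s : ℕ} {j : Fin s → ℕ} (hj : ∀ c, 1 ≤ j c) (c : Fin s) :
    Qc G j c (j c) = ∑ X, IX G j X ^ 2 := by
  sorry

/-- JS-14c -/
theorem card_sq_le {s : ℕ} {j : Fin s → ℕ} :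
    ((cps G j).card : ℝ) ^ 2 ≤ (Fintype.card V : ℝ) ^ s * ∑ X, IX G j X ^ 2 := by
  sorry

/-! ## JS-15: growth along a leg -/

/-- JS-15 -/
theorem growth {O Ξ : Type} [Fintype O] [Fintype Ξ] [DecidableEq Ξ] (Os : Finset O) (U : O → V)
    (ξ : O → Ξ) (S : O → Finset V) {T D : ℝ} (hT : 0 ≤ T) (hD : 0 < D) {i : ℕ} (hi : 1 ≤ i)
    (hW : ∀ m, 2 ≤ m → m ≤ i + 1 → ∀ y, W G m y y ≤ T * D ^ m) :
    Qv G Os U ξ S i ≤ √(Qv G Os U ξ S (i - 1)) * (√(Qv G Os U ξ S (i + 1)) +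
      ∑ i' ∈ range i, T * D ^ (i + 1 - i') * √(Qv G Os U ξ S i') +
      √(∑ x, ∑ y, βv G Os U ξ S i x y ^ 2)) := by
  sorry

/-! ## JS-16: collisions between two legs -/

/-- JS-16 -/
theorem beta_bound {s : ℕ} {j : Fin s → ℕ} {k : ℕ} (hjk : ∀ c, j c ≤ k) (c : Fin s) {T D : ℝ}
    (hT : 1 ≤ T) (hD : 0 < D) (hW : ∀ m ≤ 2 * k, ∀ x y, W G m x y ≤ T * D ^ m) {i : ℕ}
    (hi : i < j c) :
    ∑ x, ∑ y, βv G (oth G j c) (fun o => o.1) oX oS i x y ^ 2 ≤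
      ((∑ b, j b : ℕ) : ℝ) ^ 2 * T ^ (s + 1) * Fintype.card V *
        D ^ (2 * ((∑ b, j b) - j c + i + 1)) := by
  sorry

end Pool.Agent.Helper55.JS
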